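import Pool.Agent.T9h98.EP.Defs

/-!
# Piece WIDE of the project EP: the faces which contain the nodes `0, …, 4` are wide
-/

set_option autoImplicit false

open Set
open scoped RealInnerProductSpace

namespace Pool.Agent.T9h96.EP

open Pool.Agent.T9h98.DC Pool.Agent.T9h98.EP

theorem step {d : ℕ} (D : RD d) {v : E d} (hv : v ∈ D.V) (i : Fin d)
    (h : ⟪v, D.α i⟫ = D.c) : v - D.α i ∈ D.V := by
  have h1 := D.refl i v hv
  rwa [h, div_self D.cpos.ne', one_smul] at h1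

/-- **WIDE.** -/
theorem wide : S_WIDE := by
  intro d D T hT
  have hd := D.hd
  obtain ⟨a0, h0⟩ : ∃ a : Fin d, (a : ℕ) = 0 := ⟨⟨0, by omega⟩, rfl⟩
  obtain ⟨a1, h1⟩ : ∃ a : Fin d, (a : ℕ) = 1 := ⟨⟨1, by omega⟩, rfl⟩
  obtain ⟨a2, h2⟩ : ∃ a : Fin d, (a : ℕ) = 2 := ⟨⟨2, by omega⟩, rfl⟩
  obtain ⟨a3, h3⟩ : ∃ a : Fin d, (a : ℕ) = 3 := ⟨⟨3, by omega⟩, rfl⟩
  obtain ⟨a4, h4⟩ : ∃ a : Fin d, (a : ℕ) = 4 := ⟨⟨4, by omega⟩, rfl⟩
  have w0 : ⟪D.ω, D.α a0⟫ = D.c := by rw [D.ring a0, if_pos h0]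
  have w1 : ⟪D.ω, D.α a1⟫ = 0 := by rw [D.ring a1, if_neg (by omega)]
  have w2 : ⟪D.ω, D.α a2⟫ = 0 := by rw [D.ring a2, if_neg (by omega)]
  have w3 : ⟪D.ω, D.α a3⟫ = 0 := by rw [D.ring a3, if_neg (by omega)]
  have w4 : ⟪D.ω, D.α a4⟫ = 0 := by rw [D.ring a4, if_neg (by omega)]
  have e10 : ⟪D.α a1, D.α a0⟫ = -D.c := by
    rw [D.adj a1 a0 (by rw [Fin.lt_def]; omega), if_pos (by omega)]
  have e20 : ⟪D.α a2, D.α a0⟫ = 0 := by
    rw [D.adj a2 a0 (by rw [Fin.lt_def]; omega), if_neg (by omega)]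
  have e30 : ⟪D.α a3, D.α a0⟫ = 0 := by
    rw [D.adj a3 a0 (by rw [Fin.lt_def]; omega), if_neg (by omega)]
  have e40 : ⟪D.α a4, D.α a0⟫ = 0 := by
    rw [D.adj a4 a0 (by rw [Fin.lt_def]; omega), if_neg (by omega)]
  have e21 : ⟪D.α a2, D.α a1⟫ = -D.c := by
    rw [D.adj a2 a1 (by rw [Fin.lt_def]; omega), if_pos (by omega)]
  have e31 : ⟪D.α a3, D.α a1⟫ = 0 := by
    rw [D.adj a3 a1 (by rw [Fin.lt_def]; omega), if_neg (by omega)]
  have e41 : ⟪D.α a4, D.α a1⟫ = 0 := by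
    rw [D.adj a4 a1 (by rw [Fin.lt_def]; omega), if_neg (by omega)]
  have e32 : ⟪D.α a3, D.α a2⟫ = -D.c := by
    rw [D.adj a3 a2 (by rw [Fin.lt_def]; omega), if_pos (by omega)]
  have e42 : ⟪D.α a4, D.α a2⟫ = -D.c := by
    rw [D.adj a4 a2 (by rw [Fin.lt_def]; omega), if_pos (by omega)]
  have e43 : ⟪D.α a4, D.α a3⟫ = 0 := by
    rw [D.adj a4 a3 (by rw [Fin.lt_def]; omega), if_neg (by omega)]
  have e01 : ⟪D.α a0, D.α a1⟫ = -D.c := by rw [real_inner_comm, e10]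
  have e02 : ⟪D.α a0, D.α a2⟫ = 0 := by rw [real_inner_comm, e20]
  have e03 : ⟪D.α a0, D.α a3⟫ = 0 := by rw [real_inner_comm, e30]
  have e04 : ⟪D.α a0, D.α a4⟫ = 0 := by rw [real_inner_comm, e40]
  have e12 : ⟪D.α a1, D.α a2⟫ = -D.c := by rw [real_inner_comm, e21]
  have e13 : ⟪D.α a1, D.α a3⟫ = 0 := by rw [real_inner_comm, e31]
  have e14 : ⟪D.α a1, D.α a4⟫ = 0 := by rw [real_inner_comm, e41]
  have e23 : ⟪D.α a2, D.α a3⟫ = -D.c := by rw [real_inner_comm, e32]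
  have e24 : ⟪D.α a2, D.α a4⟫ = -D.c := by rw [real_inner_comm, e42]
  have e34 : ⟪D.α a3, D.α a4⟫ = 0 := by rw [real_inner_comm, e43]
  have n0 := D.norm a0
  have n1 := D.norm a1
  have n2 := D.norm a2
  have n3 := D.norm a3
  have n4 := D.norm a4
  have v1 := step D D.mem a0 w0
  have v2 := step D v1 a1 (by simp only [inner_sub_left, w1, e01]; ring)
  have v3 := step D v2 a2 (by simp only [inner_sub_left, w2, e02, e12]; ring)
  have v4 := step D v3 a3 (by simp only [inner_sub_left, w3, e03, e13, e23]; ring)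
  have v5 := step D v4 a4 (by simp only [inner_sub_left, w4, e04, e14, e24, e34]; ring)
  have v6 := step D v5 a2 (by simp only [inner_sub_left, w2, e02, e12, n2, e32, e42]; ring)
  have v7 := step D v6 a1 (by
    simp only [inner_sub_left, w1, e01, n1, e21, e31, e41]; ring)
  have v8 := step D v7 a0 (by
    simp only [inner_sub_left, w0, n0, e10, e20, e30, e40]; ring)
  have t0 := hT a0 (by omega)
  have t1 := hT a1 (by omega)
  have t2 := hT a2 (by omega)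
  have t3 := hT a3 (by omega)
  have t4 := hT a4 (by omega)
  refine ⟨D.ω, subset_convexHull ℝ _ ⟨D.mem, ?_⟩,
    D.ω - D.α a0 - D.α a1 - D.α a2 - D.α a3 - D.α a4 - D.α a2 - D.α a1 - D.α a0,
    subset_convexHull ℝ _ ⟨v8, ?_⟩, ?_⟩
  · rw [sub_self]
    exact Submodule.zero_mem _
  · have hs : ∀ i ∈ T, D.α i ∈ Submodule.span ℝ (D.α '' (T : Set (Fin d))) := fun i hi =>
      Submodule.subset_span ⟨i, hi, rfl⟩
    have he : D.ω - (D.ω - D.α a0 - D.α a1 - D.α a2 - D.α a3 - D.α a4 - D.α a2 - D.α a1 - D.α a0) =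
        D.α a0 + D.α a1 + D.α a2 + D.α a3 + D.α a4 + D.α a2 + D.α a1 + D.α a0 := by abel
    rw [he]
    exact Submodule.add_mem _ (Submodule.add_mem _ (Submodule.add_mem _ (Submodule.add_mem _
      (Submodule.add_mem _ (Submodule.add_mem _ (Submodule.add_mem _ (hs _ t0) (hs _ t1))
        (hs _ t2)) (hs _ t3)) (hs _ t4)) (hs _ t2)) (hs _ t1)) (hs _ t0)
  · rw [dist_eq_norm, norm_sub_sq_real, D.nrm _ v8]
    have hw : ⟪D.ω, D.ω - D.α a0 - D.α a1 - D.α a2 - D.α a3 - D.α a4 - D.α a2 - D.α a1 -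
        D.α a0⟫ = ‖D.ω‖ ^ 2 - 2 * D.c := by
      simp only [inner_sub_right, w0, w1, w2, w3, w4]
      rw [real_inner_self_eq_norm_sq]
      ring
    rw [hw]
    apply le_of_eq
    ring

end Pool.Agent.T9h96.EP
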